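import Pool.Agent.H38.SD.Main45

set_option autoImplicit false

/-!
# The strong fractional choice number of planar graphs without cycles of length 4 and 5 is below 4

Full answer to Q2 of the problem. How the definitions match the problem file:
* `Choosable G a b`: `(a, b)`-choosability, lists are sets of `a` integers, the chosen sets have
  `b` elements and are disjoint for adjacent vertices;
* `StronglyFractional G r`: `(a, b)`-choosable for all positive integers `a`, `b` with `a/b ≥ r`;
* `chs G`: the infimum of all such real numbers `r`;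
* `P45 G`: `G` is planar without cycles of length 4 and without cycles of length 5 (as subgraphs);
  planarity by rotation systems with Euler's formula, or by straight-line drawings;
* `values`: the set of all `chs G`, `G` a finite graph in the class; its supremum is
  `ch^s_f(P_{4,5})`.
-/

namespace Pool.Agent.Results.MP_fd2d27_co.BelowFour

open Pool.Agent.H239R2.Planar (IsPlanar HasStraightLineDrawing)
open Pool.Agent.H38.SD (NoC45 main' planar_facts sparse_gi)
open Pool.Agent.N888.TF (greedy)

/-- `G` is `(a, b)`-choosable. -/
def Choosable {V : Type} (G : SimpleGraph V) (a b : ℕ) : Prop :=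
  ∀ L : V → Finset ℤ, (∀ v, (L v).card = a) →
    ∃ S : V → Finset ℤ, (∀ v, S v ⊆ L v ∧ (S v).card = b) ∧
      ∀ u v, G.Adj u v → Disjoint (S u) (S v)

/-- `G` is strongly fractional `r`-choosable: it is `(a, b)`-choosable for all positive integers
`a`, `b` with `a / b ≥ r`. -/
def StronglyFractional {V : Type} (G : SimpleGraph V) (r : ℝ) : Prop :=
  ∀ a b : ℕ, 0 < a → 0 < b → r ≤ (a : ℝ) / b → Choosable G a b

/-- the strong fractional choice number of `G` -/
noncomputable def chs {V : Type} (G : SimpleGraph V) : ℝ :=
  sInf {r : ℝ | StronglyFractional G r}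

/-- The class `P_{4,5}`: planar graphs with no cycle of length 4 and no cycle of length 5.
Planar means: some rotation system of `G` satisfies Euler's formula, or `G` has a straight-line
drawing in the plane. (Both are well known to be equivalent to planarity.) -/
def P45 {V : Type} (G : SimpleGraph V) : Prop :=
  (IsPlanar G ∨ HasStraightLineDrawing G) ∧
    ∀ (v : V) (c : G.Walk v v), c.IsCycle → c.length ≠ 4 ∧ c.length ≠ 5

/-- the strong fractional choice numbers of the finite graphs in the class -/
def values : Set ℝ :=
  {x | ∃ (V : Type) (_ : Fintype V) (G : SimpleGraph V), P45 G ∧ x = chs G}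

/-- There is `α < 4` such that every finite planar graph without cycles of length 4 and 5 is
strongly fractional `α`-choosable; hence `ch^s_f(P_{4,5}) < 4`. -/
theorem result :
    (∃ α : ℝ, α < 4 ∧ ∀ (V : Type) [Fintype V] (G : SimpleGraph V), P45 G →
      StronglyFractional G α ∧ chs G ≤ α) ∧
    values.Nonempty ∧ BddAbove values ∧ sSup values < 4 := by
  obtain ⟨N, hN0, hN⟩ := main'
  have hNr : (0 : ℝ) < N := by exact_mod_cast hN0
  have hN1 : (1 : ℝ) ≤ N := by exact_mod_cast hN0
  set α : ℝ := 4 - 1 / (2 * N) with hα
  have hhalf : 1 / (2 * (N : ℝ)) ≤ 1 / 2 := by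
    apply one_div_le_one_div_of_le (by norm_num); linarith
  have hα0 : 0 < α := by rw [hα]; linarith
  have hα4 : α < 4 := by
    have : 0 < 1 / (2 * (N : ℝ)) := by positivity
    rw [hα]; linarith
  have hSF : ∀ (V : Type) [Fintype V] (G : SimpleGraph V), P45 G → StronglyFractional G α := by
    intro V _ G hG a b ha hb hab L hL
    obtain ⟨hTB, h5⟩ := planar_facts G hG.1
    have hC : NoC45 G := hG.2
    have hbr : (1 : ℝ) ≤ b := by exact_mod_cast hb
    rw [le_div_iff₀ (by linarith)] at hab
    have e : α * b = 4 * b - b / (2 * N) := by rw [hα]; ring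
    -- lists of natural numbers
    let φ : ℤ ↪ ℕ := Equiv.intEquivNat.toEmbedding
    obtain ⟨f, hf1, hf2⟩ : ∃ f : V → Finset ℕ, (∀ v, f v ⊆ (L v).map φ ∧ (f v).card = b) ∧
        ∀ u v, G.Adj u v → Disjoint (f u) (f v) := by
      by_cases hbN : N ≤ b
      · apply hN b hbN V G hC hTB h5
        intro v
        rw [Finset.card_map, hL v]
        refine le_trans ?_ hab
        have : (b : ℝ) / (2 * N) ≤ b / N := by
          apply div_le_div_of_nonneg_left (by linarith) hNr; linarith
        rw [e]; linarith
      · push Not at hbN
        apply greedy G (sparse_gi hC hTB) b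
        intro v
        rw [Finset.card_map, hL v]
        have h2 : (b : ℝ) / (2 * N) ≤ 1 / 2 := by
          rw [div_le_div_iff₀ (by positivity) (by norm_num)]
          have : (b : ℝ) ≤ N := by exact_mod_cast hbN.le
          linarith
        have h3 : (4 * b : ℝ) < a + 1 := by
          rw [e] at hab; linarith
        have h4 : 4 * b < a + 1 := by exact_mod_cast h3
        omega
    refine ⟨fun v => (f v).map Equiv.intEquivNat.symm.toEmbedding, ?_, ?_⟩
    · intro v
      refine ⟨?_, by rw [Finset.card_map]; exact (hf1 v).2⟩
      intro x hx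
      obtain ⟨y, hy, rfl⟩ := Finset.mem_map.1 hx
      obtain ⟨z, hz, hzy⟩ := Finset.mem_map.1 ((hf1 v).1 hy)
      rw [← hzy]
      simpa [φ] using hz
    · intro u v huv
      exact (Finset.disjoint_map _).2 (hf2 u v huv)
  have hch : ∀ (V : Type) [Fintype V] (G : SimpleGraph V), P45 G → chs G ≤ α := by
    intro V _ G hG
    unfold chs
    by_cases hb : BddBelow {r : ℝ | StronglyFractional G r}
    · exact csInf_le hb (hSF V G hG)
    · rw [Real.sInf_of_not_bddBelow hb]
      exact hα0.le
  have hne : values.Nonempty := by
    refine ⟨chs (⊥ : SimpleGraph Unit), Unit, inferInstance, ⊥, ⟨?_, ?_⟩, rfl⟩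
    · refine Or.inr ⟨fun _ => 0, fun _ _ _ => rfl, ?_, ?_⟩
      · intro u v w huv; exact absurd huv (by simp)
      · intro u v x y huv; exact absurd huv (by simp)
    · intro v c hc
      cases c with
      | nil => exact absurd rfl hc.ne_nil
      | cons h p => exact absurd h (by simp)
  have hb : ∀ x ∈ values, x ≤ α := by
    rintro x ⟨V, _, G, h1, rfl⟩
    exact hch V G h1
  exact ⟨⟨α, hα4, fun V _ G h1 => ⟨hSF V G h1, hch V G h1⟩⟩, hne, ⟨α, hb⟩,
    (csSup_le hne hb).trans_lt hα4⟩

end Pool.Agent.Results.MP_fd2d27_co.BelowFour
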